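import Pool.Agent.Q194.LinSof.Ineq

/-!
# Amplification of linear sofic approximations by the conjugation representation
-/

set_option autoImplicit false

namespace Pool.Agent.Q194.LinSof

open Module LinearMap

universe u v w

section

variable {K : Type*} [Field K] {V W : Type*} [AddCommGroup V] [Module K V] [FiniteDimensional K V]
  [AddCommGroup W] [Module K W] [FiniteDimensional K W]

theorem finrank_range_add_le (f g : V →ₗ[K] W) :
    finrank K (range (f + g)) ≤ finrank K (range f) + finrank K (range g) := by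
  refine (Submodule.finrank_mono ?_).trans (Submodule.finrank_add_le_finrank_add_finrank _ _)
  rintro _ ⟨x, rfl⟩
  exact Submodule.add_mem_sup ⟨x, rfl⟩ ⟨x, rfl⟩

theorem finrank_range_comp_left {U : Type*} [AddCommGroup U] [Module K U] [FiniteDimensional K U]
    (f : W →ₗ[K] U) (g : V →ₗ[K] W) : finrank K (range (f ∘ₗ g)) ≤ finrank K (range g) := by
  rw [LinearMap.range_comp]
  exact Submodule.finrank_map_le f (range g)

theorem finrank_range_comp_right {U : Type*} [AddCommGroup U] [Module K U] [FiniteDimensional K U]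
    (f : W →ₗ[K] U) (g : V →ₗ[K] W) : finrank K (range (f ∘ₗ g)) ≤ finrank K (range f) :=
  Submodule.finrank_mono (LinearMap.range_comp_le_range g f)

/-- Rank of the difference of two conjugations. -/
theorem conj_rank (P Q : V ≃ₗ[K] V) :
    finrank K (range ((P.conj : Module.End K V →ₗ[K] Module.End K V) -
      (Q.conj : Module.End K V →ₗ[K] Module.End K V))) ≤
      2 * finrank K (range ((P : V →ₗ[K] V) - (Q : V →ₗ[K] V))) * finrank K V := by
  set D : V →ₗ[K] V := (P : V →ₗ[K] V) - (Q : V →ₗ[K] V) with hD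
  let D' : V →ₗ[K] V := (P.symm : V →ₗ[K] V) - (Q.symm : V →ₗ[K] V)
  have hD' : finrank K (range D') ≤ finrank K (range D) := by
    have h : D' = -((P.symm : V →ₗ[K] V) ∘ₗ (D ∘ₗ (Q.symm : V →ₗ[K] V))) := by
      ext x
      simp [D', hD, map_sub]
    rw [h, LinearMap.range_neg]
    exact (finrank_range_comp_left _ _).trans (finrank_range_comp_right _ _)
  let T1 : Module.End K V →ₗ[K] Module.End K V :=
    { toFun := fun X => D ∘ₗ X ∘ₗ (P.symm : V →ₗ[K] V)
      map_add' := fun Y Z => by ext; simp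
      map_smul' := fun c Y => by ext; simp }
  let T2 : Module.End K V →ₗ[K] Module.End K V :=
    { toFun := fun X => (Q : V →ₗ[K] V) ∘ₗ X ∘ₗ D'
      map_add' := fun Y Z => by ext; simp
      map_smul' := fun c Y => by ext; simp }
  have hT : (P.conj : Module.End K V →ₗ[K] Module.End K V) -
      (Q.conj : Module.End K V →ₗ[K] Module.End K V) = T1 + T2 := by
    ext X x
    simp [T1, T2, D', hD, LinearEquiv.conj_apply]
  have h1 : finrank K (range T1) ≤ finrank K V * finrank K (range D) := by
    refine (Submodule.finrank_mono ?_).trans ((finrank_box (⊥ : Submodule K V) (range D)).trans ?_)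
    · rintro _ ⟨X, rfl⟩
      refine ⟨bot_le, ?_⟩
      rintro _ ⟨x, rfl⟩
      exact ⟨X (P.symm x), rfl⟩
    · exact Nat.mul_le_mul_right _ (Submodule.finrank_quotient_le _)
  have h2 : finrank K (range T2) ≤ finrank K (range D) * finrank K V := by
    refine (Submodule.finrank_mono ?_).trans ((finrank_box (ker D') (⊤ : Submodule K V)).trans ?_)
    · rintro _ ⟨X, rfl⟩
      refine ⟨fun x hx => ?_, le_top⟩
      rw [mem_ker] at hx ⊢
      show Q (X (D' x)) = 0
      rw [hx, map_zero, map_zero]
    · rw [D'.quotKerEquivRange.finrank_eq]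
      exact Nat.mul_le_mul hD' (Submodule.finrank_le _)
  rw [hT]
  refine (finrank_range_add_le T1 T2).trans ?_
  calc finrank K (range T1) + finrank K (range T2)
      ≤ finrank K V * finrank K (range D) + finrank K (range D) * finrank K V := Nat.add_le_add h1 h2
    _ = 2 * finrank K (range D) * finrank K V := by ring

theorem quad (M a b n : ℝ) (hM : 1 / 2 ≤ M) (ha : n / 2 ≤ a) (ha' : a ≤ M * n) (hb : b ≤ M * n)
    (hn : 0 ≤ n) : a * b + (n - a) * (n - b) ≤ (M ^ 2 + (1 - M) ^ 2) * n ^ 2 := by
  have h1 : 0 ≤ (2 * a - n) * (M * n - b) := mul_nonneg (by linarith) (by linarith)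
  have h2 : 0 ≤ ((2 * M - 1) * n) * (M * n - a) := mul_nonneg (mul_nonneg (by linarith) hn)
    (by linarith)
  nlinarith

/-- Eigenspaces of the conjugation by `C`. -/
theorem conj_ker (C : V ≃ₗ[K] V) (hV : 0 < finrank K V) (M : ℝ) (hM : 1 / 2 ≤ M)
    (hC : ∀ c : K, (finrank K (ker ((C : V →ₗ[K] V) - c • LinearMap.id)) : ℝ) ≤ M * finrank K V)
    (γ : K) : (finrank K (ker ((C.conj : Module.End K V →ₗ[K] Module.End K V) -
      γ • LinearMap.id)) : ℝ) ≤ (M ^ 2 + (1 - M) ^ 2) * (finrank K (Module.End K V)) := by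
  have hEnd : finrank K (Module.End K V) = finrank K V * finrank K V :=
    Module.finrank_linearMap K K V V
  set n := finrank K V with hn
  have hn0 : (0 : ℝ) < n := by exact_mod_cast hV
  have hcoef : (1 : ℝ) / 2 ≤ M ^ 2 + (1 - M) ^ 2 := by nlinarith [sq_nonneg (2 * M - 1)]
  set U := ker ((C.conj : Module.End K V →ₗ[K] Module.End K V) - γ • LinearMap.id) with hU
  have hmem : ∀ X ∈ U, ∀ x, C (X (C.symm x)) = γ • X x := by
    intro X hX x
    rw [hU, mem_ker, LinearMap.sub_apply, sub_eq_zero] at hX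
    exact LinearMap.congr_fun hX x
  rw [hEnd]
  push_cast
  by_cases hγ : γ = 0
  · have h0 : U = ⊥ := by
      rw [eq_bot_iff]
      intro X hX
      rw [Submodule.mem_bot]
      ext x
      have h := hmem X hX (C x)
      rw [hγ, zero_smul] at h
      simpa using h
    rw [h0, finrank_bot]
    simp only [Nat.cast_zero]
    positivity
  by_cases hα : ∃ α : K, (n : ℝ) / 2 ≤ finrank K (ker ((C : V →ₗ[K] V) - α • LinearMap.id))
  · obtain ⟨α, hα⟩ := hα
    have hα0 : α ≠ 0 := by
      rintro rfl
      have h0 : ker ((C : V →ₗ[K] V) - (0 : K) • LinearMap.id) = ⊥ := by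
        rw [zero_smul, sub_zero]
        exact LinearMap.ker_eq_bot.2 C.injective
      rw [h0, finrank_bot] at hα
      simp only [Nat.cast_zero] at hα
      linarith
    have hβ0 : γ / α ≠ 0 := div_ne_zero hγ hα0
    have h1 := key1 (C : V →ₗ[K] V) (C.symm : V →ₗ[K] V) C.symm.surjective α (γ / α) hα0 U
      (fun X hX => by
        ext x
        rw [mul_div_cancel₀ _ hα0]
        exact hmem X hX x)
    set N : V →ₗ[K] V := (C : V →ₗ[K] V) - α • LinearMap.id with hN
    set N' : V →ₗ[K] V := (C.symm : V →ₗ[K] V) - (γ / α) • LinearMap.id with hN'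
    have e1 := finrank_range_add_finrank_ker N
    have e2 := finrank_range_add_finrank_ker N'
    have e3 := Submodule.finrank_quotient_add_finrank (range N')
    have e4 : finrank K (V ⧸ range N') = finrank K (ker N') := by omega
    have e5 : ker N' ≤ ker ((C : V →ₗ[K] V) - (γ / α)⁻¹ • LinearMap.id) := by
      intro x hx
      rw [mem_ker] at hx ⊢
      simp only [hN', LinearMap.sub_apply, LinearMap.smul_apply, LinearMap.id_apply,
        sub_eq_zero, LinearEquiv.coe_coe] at hx ⊢
      have h := congrArg C hx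
      rw [C.apply_symm_apply, map_smul] at h
      rw [eq_inv_smul_iff₀ hβ0]
      exact h.symm
    have e6 : (finrank K (ker N') : ℝ) ≤ M * n := by
      have h2 : (finrank K (ker N') : ℝ) ≤
          finrank K (ker ((C : V →ₗ[K] V) - (γ / α)⁻¹ • LinearMap.id)) := by
        exact_mod_cast Submodule.finrank_mono e5
      exact h2.trans (hC _)
    rw [e4] at h1
    have h2 : (finrank K U : ℝ) ≤ finrank K (ker N') * finrank K (ker N) +
        finrank K (range N') * finrank K (range N) := by exact_mod_cast h1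
    have r1 : (finrank K (range N) : ℝ) = n - finrank K (ker N) := by
      have : (finrank K (range N) : ℝ) + finrank K (ker N) = n := by exact_mod_cast e1
      linarith
    have r2 : (finrank K (range N') : ℝ) = n - finrank K (ker N') := by
      have : (finrank K (range N') : ℝ) + finrank K (ker N') = n := by exact_mod_cast e2
      linarith
    rw [r1, r2] at h2
    have := quad M (finrank K (ker N)) (finrank K (ker N')) n hM hα (hC α) e6 hn0.le
    nlinarith
  · push Not at hα
    have h1 := key2 (C : V →ₗ[K] V) γ hγ (1 / 2) le_rfl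
      (fun c => by have := hα c; linarith) n V (C : V →ₗ[K] V) rfl
    have h2 : U ≤ sol (C : V →ₗ[K] V) (C : V →ₗ[K] V) γ := by
      intro X hX
      rw [mem_sol]
      intro x
      have := hmem X hX (C x)
      simpa using this
    have h3 : (finrank K U : ℝ) ≤ finrank K (sol (C : V →ₗ[K] V) (C : V →ₗ[K] V) γ) := by
      exact_mod_cast Submodule.finrank_mono h2
    have h4 : (n : ℝ) * (1 / 2 * n) ≤ (M ^ 2 + (1 - M) ^ 2) * (n * n) := by nlinarith
    linarith

end

/-- Approximate representations of `G` on finite dimensional vector spaces: error `δ` for products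
of elements of `F`, and all eigenspaces of `φ(h)⁻¹ φ(g)` have relative dimension at most `M`. -/
def QQ (K : Type u) [Field K] (G : Type v) [Group G] (F : Finset G) (δ M : ℝ) : Prop :=
  ∃ (V : Type u) (_ : AddCommGroup V) (_ : Module K V) (_ : FiniteDimensional K V)
    (φ : G → (V ≃ₗ[K] V)), 0 < finrank K V ∧
    (∀ g ∈ F, ∀ h ∈ F, (finrank K (range (((φ h).trans (φ g) : V →ₗ[K] V) -
      (φ (g * h) : V →ₗ[K] V))) : ℝ) ≤ δ * finrank K V) ∧
    (∀ g ∈ F, ∀ h ∈ F, g ≠ h → ∀ c : K, (finrank K (ker (((φ g).trans (φ h).symm : V →ₗ[K] V) -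
      c • LinearMap.id)) : ℝ) ≤ M * finrank K V)

theorem QQ.step {K : Type u} [Field K] {G : Type v} [Group G] {F : Finset G} {δ M : ℝ}
    (hM : 1 / 2 ≤ M) (h : QQ K G F δ M) : QQ K G F (2 * δ) (M ^ 2 + (1 - M) ^ 2) := by
  obtain ⟨V, _, _, _, φ, hV, h1, h2⟩ := h
  have hEnd : finrank K (Module.End K V) = finrank K V * finrank K V :=
    Module.finrank_linearMap K K V V
  refine ⟨Module.End K V, inferInstance, inferInstance, inferInstance, fun g => (φ g).conj,
    by rw [hEnd]; positivity, ?_, ?_⟩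
  · intro g hg h hh
    beta_reduce
    rw [LinearEquiv.conj_trans, hEnd]
    have h3 := conj_rank ((φ h).trans (φ g)) (φ (g * h))
    have h4 := h1 g hg h hh
    have h5 : (finrank K (range ((((φ h).trans (φ g)).conj : Module.End K V →ₗ[K] Module.End K V) -
      ((φ (g * h)).conj : Module.End K V →ₗ[K] Module.End K V))) : ℝ) ≤
      2 * finrank K (range (((φ h).trans (φ g) : V →ₗ[K] V) - (φ (g * h) : V →ₗ[K] V))) *
        finrank K V := by exact_mod_cast h3
    refine h5.trans ?_
    have h6 : (0 : ℝ) ≤ finrank K V := Nat.cast_nonneg _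
    push_cast
    nlinarith
  · intro g hg h hh hgh c
    have h3 : ((φ g).conj.trans (φ h).conj.symm) = ((φ g).trans (φ h).symm).conj := by
      rw [← LinearEquiv.conj_trans]
      rfl
    beta_reduce
    rw [h3]
    exact conj_ker _ hV M hM (h2 g hg h hh hgh) c

theorem QQ.mono {K : Type u} [Field K] {G : Type v} [Group G] {F : Finset G} {δ δ' M M' : ℝ}
    (h : QQ K G F δ M) (hδ : δ ≤ δ') (hM : M ≤ M') : QQ K G F δ' M' := by
  obtain ⟨V, _, _, _, φ, hV, h1, h2⟩ := h
  have hn : (0 : ℝ) ≤ finrank K V := Nat.cast_nonneg _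
  exact ⟨V, _, _, inferInstance, φ, hV,
    fun g hg h hh => (h1 g hg h hh).trans (mul_le_mul_of_nonneg_right hδ hn),
    fun g hg h hh hgh c => (h2 g hg h hh hgh c).trans (mul_le_mul_of_nonneg_right hM hn)⟩

/-- Iterating the step: the constant tends to `1/2`. -/
theorem QQ.iterate {K : Type u} [Field K] {G : Type v} [Group G] {F : Finset G} (ρ : ℝ)
    (hρ0 : 0 ≤ ρ) (h : ∀ δ : ℝ, 0 < δ → QQ K G F δ (1 / 2 + ρ / 2)) (k : ℕ) :
    ∀ δ : ℝ, 0 < δ → QQ K G F δ (1 / 2 + ρ ^ (k + 1) / 2) := by
  by_cases hρ1 : ρ ≤ 1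
  · induction k with
    | zero => simpa using h
    | succ k ih =>
      intro δ hδ
      have h1 := (ih (δ / 2) (by linarith)).step
        (by have : 0 ≤ ρ ^ (k + 1) := pow_nonneg hρ0 _; linarith)
      refine h1.mono (by linarith) ?_
      have hx : 0 ≤ ρ ^ (k + 1) := pow_nonneg hρ0 _
      have hy : ρ ^ (k + 1) ≤ ρ := by
        calc ρ ^ (k + 1) = ρ ^ k * ρ := pow_succ _ _
          _ ≤ 1 * ρ := mul_le_mul_of_nonneg_right (pow_le_one₀ hρ0 hρ1) hρ0
          _ = ρ := one_mul _
      have hz : ρ ^ (k + 1 + 1) = ρ ^ (k + 1) * ρ := pow_succ _ _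
      rw [hz]
      nlinarith [mul_le_mul_of_nonneg_left hy hx]
  · push Not at hρ1
    intro δ hδ
    refine (h δ hδ).mono le_rfl ?_
    have : ρ ≤ ρ ^ (k + 1) := by
      calc ρ = ρ ^ 1 := (pow_one _).symm
        _ ≤ ρ ^ (k + 1) := pow_le_pow_right₀ hρ1.le (by omega)
    linarith

end Pool.Agent.Q194.LinSof
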