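import Pool.Agent.Q194.LinSof.Defs
import Pool.Agent.Q194.LinSof.Amp

/-!
# From matrices to vector spaces and back
-/

set_option autoImplicit false

namespace Pool.Agent.Q194.LinSof

open Module LinearMap
open scoped Classical

universe u v w

/-- The linear automorphism of an invertible matrix. -/
noncomputable def eqv {K : Type*} [Field K] {n : ℕ} (A : Matrix.GeneralLinearGroup (Fin n) K) :
    (Fin n → K) ≃ₗ[K] (Fin n → K) :=
  LinearEquiv.ofLinearMap (Matrix.mulVecLin A.val) (Matrix.mulVecLin (A⁻¹).val)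
    (by rw [← Matrix.mulVecLin_mul, ← Units.val_mul, mul_inv_cancel]; simp)
    (by rw [← Matrix.mulVecLin_mul, ← Units.val_mul, inv_mul_cancel]; simp)

theorem coe_eqv {K : Type*} [Field K] {n : ℕ} (A : Matrix.GeneralLinearGroup (Fin n) K) :
    (eqv A : (Fin n → K) →ₗ[K] (Fin n → K)) = Matrix.mulVecLin A.val := rfl

theorem coe_eqv_symm {K : Type*} [Field K] {n : ℕ} (A : Matrix.GeneralLinearGroup (Fin n) K) :
    ((eqv A).symm : (Fin n → K) →ₗ[K] (Fin n → K)) = Matrix.mulVecLin (A⁻¹).val := rfl

theorem finrank_ker_prodMap {K V : Type*} [Field K] [AddCommGroup V] [Module K V]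
    [FiniteDimensional K V] (C : V →ₗ[K] V) (c : K) :
    finrank K (ker (C.prodMap (LinearMap.id : V →ₗ[K] V) - c • (LinearMap.id : V × V →ₗ[K] V × V))) ≤
      if c = 1 then finrank K (ker (C - (1 : K) • LinearMap.id)) + finrank K V else finrank K V := by
  split_ifs with hc
  · subst hc
    let f : ker (C.prodMap (LinearMap.id : V →ₗ[K] V) - (1 : K) • (LinearMap.id : V × V →ₗ[K] V × V))
        →ₗ[K] (ker (C - (1 : K) • LinearMap.id) × V) :=
      { toFun := fun x => (⟨x.1.1, by
            have h := x.2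
            rw [mem_ker] at h ⊢
            have h1 := congrArg Prod.fst h
            simpa using h1⟩, x.1.2)
        map_add' := fun x y => rfl
        map_smul' := fun c x => rfl }
    have hf : Function.Injective f := by
      intro x y h
      apply Subtype.ext
      have h1 := congrArg (fun z => (z.1 : V)) h
      have h2 := congrArg Prod.snd h
      exact Prod.ext h1 h2
    calc _ ≤ finrank K (ker (C - (1 : K) • LinearMap.id) × V) :=
          LinearMap.finrank_le_finrank_of_injective hf
      _ = _ := Module.finrank_prod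
  · let f : ker (C.prodMap (LinearMap.id : V →ₗ[K] V) - c • (LinearMap.id : V × V →ₗ[K] V × V))
        →ₗ[K] V := (LinearMap.fst K V V) ∘ₗ (Submodule.subtype _)
    have hf : Function.Injective f := by
      intro x y h
      apply Subtype.ext
      have h0 : ∀ z : ker (C.prodMap (LinearMap.id : V →ₗ[K] V) -
          c • (LinearMap.id : V × V →ₗ[K] V × V)), z.1.2 = 0 := by
        intro z
        have h := z.2
        rw [mem_ker] at h
        have h1 : z.1.2 - c • z.1.2 = 0 := congrArg Prod.snd h
        have h2 : (1 - c) • z.1.2 = 0 := by rw [sub_smul, one_smul]; exact h1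
        exact (smul_eq_zero.1 h2).resolve_left (sub_ne_zero.2 (Ne.symm hc))
      exact Prod.ext h (by rw [h0 x, h0 y])
    exact LinearMap.finrank_le_finrank_of_injective hf

/-- Relation between the rank of `A - B` and the kernel of `B⁻¹ A - 1`. -/
theorem rank_sub_eq {K V : Type*} [Field K] [AddCommGroup V] [Module K V]
    [FiniteDimensional K V] (A B : V ≃ₗ[K] V) :
    finrank K (range ((A : V →ₗ[K] V) - (B : V →ₗ[K] V))) +
      finrank K (ker ((A.trans B.symm : V →ₗ[K] V) - (1 : K) • LinearMap.id)) = finrank K V := by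
  have h : ker ((A.trans B.symm : V →ₗ[K] V) - (1 : K) • LinearMap.id) =
      ker ((A : V →ₗ[K] V) - (B : V →ₗ[K] V)) := by
    ext x
    simp only [mem_ker, LinearMap.sub_apply, LinearMap.smul_apply, LinearMap.id_apply, one_smul,
      sub_eq_zero, LinearEquiv.coe_coe, LinearEquiv.trans_apply]
    constructor
    · intro h
      rw [← B.apply_symm_apply (A x), h]
    · intro h
      rw [h, B.symm_apply_apply]
  rw [h]
  exact finrank_range_add_finrank_ker _

theorem QQ_of_approximable {K : Type u} [Field K] {G : Type v} [Group G] {ε : ℝ} (hε : 0 < ε)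
    (hε2 : ε ≤ 2) (h : Approximable K G ε) (F : Finset G) (δ : ℝ) (hδ : 0 < δ) :
    QQ K G F δ (1 / 2 + (1 - ε / 2) / 2) := by
  obtain ⟨n, hn, φ, h1, h2⟩ := h F (min δ (ε / 2)) (lt_min hδ (by linarith))
  have hn' : (0 : ℝ) < n := by exact_mod_cast hn
  have hdim : finrank K ((Fin n → K) × (Fin n → K)) = n + n := by simp
  refine ⟨(Fin n → K) × (Fin n → K), inferInstance, inferInstance, inferInstance,
    fun g => (eqv (φ g)).prodCongr (LinearEquiv.refl K _), by rw [hdim]; omega, ?_, ?_⟩
  · intro g hg h hh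
    have h3 := h1 g hg h hh
    beta_reduce
    have h4 : ((((eqv (φ h)).prodCongr (LinearEquiv.refl K (Fin n → K))).trans
        ((eqv (φ g)).prodCongr (LinearEquiv.refl K (Fin n → K))) :
        (Fin n → K) × (Fin n → K) →ₗ[K] (Fin n → K) × (Fin n → K)) -
        ((eqv (φ (g * h))).prodCongr (LinearEquiv.refl K (Fin n → K)) :
        (Fin n → K) × (Fin n → K) →ₗ[K] (Fin n → K) × (Fin n → K))) =
        LinearMap.inl K (Fin n → K) (Fin n → K) ∘ₗ
          (Matrix.mulVecLin ((φ g * φ h).val - (φ (g * h)).val)) ∘ₗ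
            LinearMap.fst K (Fin n → K) (Fin n → K) := by
      apply LinearMap.ext
      rintro ⟨x, y⟩
      have e1 : ∀ (A : Matrix.GeneralLinearGroup (Fin n) K) (z : Fin n → K),
          (eqv A) z = A.val.mulVec z := fun A z => rfl
      ext i
      · simp [e1, Matrix.sub_mulVec]
      · simp
    rw [h4, hdim]
    have h5 : finrank K (range (LinearMap.inl K (Fin n → K) (Fin n → K) ∘ₗ
          (Matrix.mulVecLin ((φ g * φ h).val - (φ (g * h)).val)) ∘ₗ
            LinearMap.fst K (Fin n → K) (Fin n → K))) ≤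
        ((φ g * φ h).val - (φ (g * h)).val).rank :=
      (finrank_range_comp_left _ _).trans (finrank_range_comp_right _ _)
    have h6 : (finrank K (range (LinearMap.inl K (Fin n → K) (Fin n → K) ∘ₗ
          (Matrix.mulVecLin ((φ g * φ h).val - (φ (g * h)).val)) ∘ₗ
            LinearMap.fst K (Fin n → K) (Fin n → K))) : ℝ) ≤
        ((φ g * φ h).val - (φ (g * h)).val).rank := by exact_mod_cast h5
    unfold rankDist at h3
    rw [div_lt_iff₀ hn'] at h3
    have h7 : min δ (ε / 2) ≤ δ := min_le_left _ _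
    refine h6.trans (h3.le.trans ?_)
    rw [Nat.cast_add]
    have h8 := mul_le_mul_of_nonneg_right h7 hn'.le
    nlinarith
  · intro g hg h hh hgh c
    have h3 := h2 g hg h hh hgh
    beta_reduce
    have h4 : ((((eqv (φ g)).prodCongr (LinearEquiv.refl K (Fin n → K))).trans
        ((eqv (φ h)).prodCongr (LinearEquiv.refl K (Fin n → K))).symm :
        (Fin n → K) × (Fin n → K) →ₗ[K] (Fin n → K) × (Fin n → K))) =
        ((eqv (φ g)).trans (eqv (φ h)).symm : (Fin n → K) →ₗ[K] (Fin n → K)).prodMap
          LinearMap.id := by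
      apply LinearMap.ext
      rintro ⟨x, y⟩
      rfl
    rw [h4, hdim]
    have h5 := finrank_ker_prodMap ((eqv (φ g)).trans (eqv (φ h)).symm :
      (Fin n → K) →ₗ[K] (Fin n → K)) c
    have h6 := rank_sub_eq (eqv (φ g)) (eqv (φ h))
    have h7 : ((eqv (φ g) : (Fin n → K) →ₗ[K] (Fin n → K)) -
      (eqv (φ h) : (Fin n → K) →ₗ[K] (Fin n → K))) =
        Matrix.mulVecLin ((φ g).val - (φ h).val) := by
      apply LinearMap.ext
      intro x
      simp only [LinearMap.sub_apply, coe_eqv, Matrix.mulVecLin_apply, Matrix.sub_mulVec]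
    rw [h7, Module.finrank_fin_fun] at h6
    have h8 : ((φ g).val - (φ h).val).rank = finrank K (range (Matrix.mulVecLin
      ((φ g).val - (φ h).val))) := rfl
    rw [← h8] at h6
    unfold rankDist at h3
    rw [lt_div_iff₀ hn'] at h3
    have h9 : min δ (ε / 2) ≤ ε / 2 := min_le_right _ _
    have h10 : (((φ g).val - (φ h).val).rank : ℝ) + finrank K (ker
      (((eqv (φ g)).trans (eqv (φ h)).symm : (Fin n → K) →ₗ[K] (Fin n → K)) -
        (1 : K) • LinearMap.id)) = n := by exact_mod_cast h6
    have h11 := (Nat.cast_le (α := ℝ)).2 h5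
    refine h11.trans ?_
    rw [Module.finrank_fin_fun]
    split_ifs with hc
    · rw [Nat.cast_add, Nat.cast_add]
      nlinarith
    · rw [Nat.cast_add]
      nlinarith

/-- The matrix of a linear automorphism in a fixed basis. -/
noncomputable def mat {K : Type*} [Field K] {V : Type*} [AddCommGroup V] [Module K V] {n : ℕ}
    (b : Basis (Fin n) K V) (A : V ≃ₗ[K] V) : Matrix.GeneralLinearGroup (Fin n) K where
  val := LinearMap.toMatrix b b (A : V →ₗ[K] V)
  inv := LinearMap.toMatrix b b (A.symm : V →ₗ[K] V)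
  val_inv := by
    rw [← LinearMap.toMatrix_comp b b b]
    have : (A : V →ₗ[K] V) ∘ₗ (A.symm : V →ₗ[K] V) = LinearMap.id := by ext; simp
    rw [this, LinearMap.toMatrix_id]
  inv_val := by
    rw [← LinearMap.toMatrix_comp b b b]
    have : (A.symm : V →ₗ[K] V) ∘ₗ (A : V →ₗ[K] V) = LinearMap.id := by ext; simp
    rw [this, LinearMap.toMatrix_id]

theorem rank_toMatrix' {K : Type*} [Field K] {V : Type*} [AddCommGroup V] [Module K V] {n : ℕ}
    (b : Basis (Fin n) K V) (f : V →ₗ[K] V) :
    (LinearMap.toMatrix b b f).rank = finrank K (range f) := by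
  rw [Matrix.rank_eq_finrank_range_toLin _ b b, Matrix.toLin_toMatrix]

theorem approximable_of_QQ {K : Type u} [Field K] {G : Type v} [Group G]
    (h : ∀ (F : Finset G) (δ : ℝ), 0 < δ → QQ K G F δ (1 / 2 + δ)) :
    Approximable K G (1 / 2) := by
  intro F δ hδ
  obtain ⟨V, _, _, _, φ, hV, h1, h2⟩ := h F (δ / 2) (by linarith)
  have hV' : (0 : ℝ) < finrank K V := by exact_mod_cast hV
  let b := Module.finBasis K V
  refine ⟨finrank K V, hV, fun g => mat b (φ g), ?_, ?_⟩
  · intro g hg h hh
    have h3 := h1 g hg h hh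
    have h4 : (mat b (φ g) * mat b (φ h)).val - (mat b (φ (g * h))).val =
        LinearMap.toMatrix b b (((φ h).trans (φ g) : V →ₗ[K] V) - (φ (g * h) : V →ₗ[K] V)) := by
      rw [map_sub, Units.val_mul]
      show LinearMap.toMatrix b b _ * LinearMap.toMatrix b b _ - LinearMap.toMatrix b b _ = _
      rw [← LinearMap.toMatrix_comp b b b]
      rfl
    unfold rankDist
    rw [h4, rank_toMatrix', div_lt_iff₀ hV']
    nlinarith
  · intro g hg h hh hgh
    have h3 := h2 g hg h hh hgh 1
    have h5 := rank_sub_eq (φ g) (φ h)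
    have h4 : (mat b (φ g)).val - (mat b (φ h)).val =
        LinearMap.toMatrix b b ((φ g : V →ₗ[K] V) - (φ h : V →ₗ[K] V)) := by
      rw [map_sub]
      rfl
    unfold rankDist
    rw [h4, rank_toMatrix', lt_div_iff₀ hV']
    have h6 : (finrank K (range ((φ g : V →ₗ[K] V) - (φ h : V →ₗ[K] V))) : ℝ) +
      finrank K (ker (((φ g).trans (φ h).symm : V →ₗ[K] V) - (1 : K) • LinearMap.id)) =
        finrank K V := by exact_mod_cast h5
    nlinarith

/-- Approximability with any positive constant implies approximability with `1/2`. -/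
theorem approximable_half {K : Type u} [Field K] {G : Type v} [Group G] {ε : ℝ} (hε : 0 < ε)
    (hε2 : ε ≤ 2) (h : Approximable K G ε) : Approximable K G (1 / 2) := by
  refine approximable_of_QQ fun F δ hδ => ?_
  have hρ0 : 0 ≤ 1 - ε / 2 := by linarith
  have hρ1 : 1 - ε / 2 < 1 := by linarith
  obtain ⟨k, hk⟩ := exists_pow_lt_of_lt_one (mul_pos two_pos hδ) hρ1
  have h1 := QQ.iterate (K := K) (G := G) (F := F) (1 - ε / 2) hρ0
    (fun δ' hδ' => QQ_of_approximable hε hε2 h F δ' hδ') k δ hδ
  refine h1.mono le_rfl ?_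
  have h2 : (1 - ε / 2) ^ (k + 1) ≤ (1 - ε / 2) ^ k := pow_le_pow_of_le_one hρ0 hρ1.le (by omega)
  linarith

theorem Approximable.mono {K : Type u} [Field K] {G : Type v} [Group G] {ε ε' : ℝ}
    (h : Approximable K G ε) (hε : ε' ≤ ε) : Approximable K G ε' := by
  intro F δ hδ
  obtain ⟨n, hn, φ, h1, h2⟩ := h F δ hδ
  exact ⟨n, hn, φ, h1, fun g hg h hh hgh => lt_of_le_of_lt (by linarith) (h2 g hg h hh hgh)⟩

end Pool.Agent.Q194.LinSof
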