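import Mathlib

/-!
# Approximation of groups by general linear groups with the normalised rank distance
-/

set_option autoImplicit false

namespace Pool.Agent.Q194.LinSof

/-- The normalised rank distance `rank (A - B) / n` on `GL(n, K)`. -/
noncomputable def rankDist {K : Type*} [Field K] {n : ℕ} (A B : Matrix.GeneralLinearGroup (Fin n) K) :
    ℝ := ((A.val - B.val).rank : ℝ) / n

/-- The group `G` is `ε`-approximable over `K`: for every finite set `F ⊆ G` and every `δ > 0`
there are `n ≥ 1` and a map `φ : G → GL(n, K)` with `d(φ(g) φ(h), φ(g h)) < δ` for `g, h ∈ F` and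
`d(φ(g), φ(h)) > ε - δ` for distinct `g, h ∈ F`. -/
def Approximable (K : Type*) [Field K] (G : Type*) [Group G] (ε : ℝ) : Prop :=
  ∀ (F : Finset G) (δ : ℝ), 0 < δ →
    ∃ n : ℕ, 0 < n ∧ ∃ φ : G → Matrix.GeneralLinearGroup (Fin n) K,
      (∀ g ∈ F, ∀ h ∈ F, rankDist (φ g * φ h) (φ (g * h)) < δ) ∧
      (∀ g ∈ F, ∀ h ∈ F, g ≠ h → ε - δ < rankDist (φ g) (φ h))

end Pool.Agent.Q194.LinSof
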