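import Mathlib

/-!
# Dimension inequalities for intertwining spaces
-/

set_option autoImplicit false

namespace Pool.Agent.Q194.LinSof

open Module LinearMap

universe u w

section

variable {K : Type*} [Field K] {V W : Type*} [AddCommGroup V] [Module K V] [FiniteDimensional K V]
  [AddCommGroup W] [Module K W] [FiniteDimensional K W]

/-- The linear maps `W → V` that vanish on `P` and have their range in `Q`. -/
def box (P : Submodule K W) (Q : Submodule K V) : Submodule K (W →ₗ[K] V) where
  carrier := {X | P ≤ ker X ∧ range X ≤ Q}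
  add_mem' := by
    rintro X Y ⟨h1, h2⟩ ⟨h3, h4⟩
    refine ⟨fun x hx => ?_, ?_⟩
    · have a := h1 hx
      have b := h3 hx
      rw [mem_ker] at a b ⊢
      rw [LinearMap.add_apply, a, b, add_zero]
    · rintro _ ⟨x, rfl⟩
      exact Q.add_mem (h2 ⟨x, rfl⟩) (h4 ⟨x, rfl⟩)
  zero_mem' := ⟨fun x _ => by simp, by rintro _ ⟨x, rfl⟩; simp⟩
  smul_mem' := by
    rintro c X ⟨h1, h2⟩
    refine ⟨fun x hx => ?_, ?_⟩
    · have a := h1 hx
      rw [mem_ker] at a ⊢
      rw [LinearMap.smul_apply, a, smul_zero]
    · rintro _ ⟨x, rfl⟩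
      exact Q.smul_mem c (h2 ⟨x, rfl⟩)

theorem finrank_box (P : Submodule K W) (Q : Submodule K V) :
    finrank K (box P Q) ≤ finrank K (W ⧸ P) * finrank K Q := by
  let g : ((W ⧸ P) →ₗ[K] Q) →ₗ[K] (W →ₗ[K] V) :=
    { toFun := fun Y => Q.subtype ∘ₗ Y ∘ₗ P.mkQ
      map_add' := fun Y Z => by ext; simp
      map_smul' := fun c Y => by ext; simp }
  have h : box P Q ≤ range g := by
    rintro X ⟨h1, h2⟩
    refine ⟨(P.liftQ X h1).codRestrict Q ?_, ?_⟩
    · intro y
      obtain ⟨x, rfl⟩ := P.mkQ_surjective y
      exact h2 ⟨x, by simp⟩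
    · ext x
      simp [g]
  calc finrank K (box P Q) ≤ finrank K (range g) := Submodule.finrank_mono h
    _ ≤ finrank K ((W ⧸ P) →ₗ[K] Q) := finrank_range_le g
    _ = finrank K (W ⧸ P) * finrank K Q := Module.finrank_linearMap K K _ _

/-- The main inequality: if `A X B = α β X` for all `X` in `U`, then
`dim U ≤ dim ker (A - α) * dim coker (B - β) + rk (A - α) * rk (B - β)`. -/
theorem key1 (A : V →ₗ[K] V) (B : W →ₗ[K] W) (hB : Function.Surjective B) (α β : K) (hα : α ≠ 0)
    (U : Submodule K (W →ₗ[K] V)) (hU : ∀ X ∈ U, A ∘ₗ X ∘ₗ B = (α * β) • X) :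
    finrank K U ≤ finrank K (W ⧸ range (B - β • LinearMap.id)) * finrank K (ker (A - α • LinearMap.id)) +
      finrank K (range (B - β • LinearMap.id)) * finrank K (range (A - α • LinearMap.id)) := by
  set N : V →ₗ[K] V := A - α • LinearMap.id with hN
  set N' : W →ₗ[K] W := B - β • LinearMap.id with hN'
  -- the basic identity
  have hid : ∀ X ∈ U, ∀ x, N (X (B x)) = -(α • X (N' x)) := by
    intro X hX x
    have h := LinearMap.congr_fun (hU X hX) x
    simp only [LinearMap.comp_apply, LinearMap.smul_apply] at h
    simp only [hN, hN', LinearMap.sub_apply, LinearMap.smul_apply, LinearMap.id_apply, h, map_sub,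
      map_smul, smul_sub, mul_smul]
    abel
  let m : U →ₗ[K] (W →ₗ[K] V) :=
    { toFun := fun X => (X : W →ₗ[K] V) ∘ₗ N'
      map_add' := fun Y Z => by ext; simp
      map_smul' := fun c Y => by ext; simp }
  have h1 := finrank_range_add_finrank_ker m
  have h2 : finrank K (range m) ≤ finrank K (W ⧸ ker N') * finrank K (range N) := by
    refine (Submodule.finrank_mono ?_).trans (finrank_box (ker N') (range N))
    rintro _ ⟨⟨X, hX⟩, rfl⟩
    refine ⟨fun x hx => ?_, ?_⟩
    · rw [mem_ker] at hx ⊢
      simp [m, hx]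
    · rintro _ ⟨x, rfl⟩
      refine ⟨-(α⁻¹ • X (B x)), ?_⟩
      rw [map_neg, map_smul, hid X hX x]
      simp [m, smul_smul, inv_mul_cancel₀ hα]
  have h3 : finrank K (ker m) ≤ finrank K (W ⧸ range N') * finrank K (ker N) := by
    have h4 : (ker m).map U.subtype ≤ box (range N') (ker N) := by
      rintro _ ⟨⟨X, hX⟩, hX2, rfl⟩
      have h5 : ∀ x, X (N' x) = 0 := fun x => LinearMap.congr_fun hX2 x
      refine ⟨?_, ?_⟩
      · rintro _ ⟨x, rfl⟩
        exact h5 x
      · rintro _ ⟨x, rfl⟩
        obtain ⟨y, rfl⟩ := hB x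
        rw [mem_ker]
        show N (X (B y)) = 0
        rw [hid X hX y, h5, smul_zero, neg_zero]
    have h6 : finrank K ((ker m).map U.subtype) = finrank K (ker m) :=
      LinearEquiv.finrank_eq (Submodule.equivSubtypeMap U (ker m)).symm
    rw [← h6]
    exact (Submodule.finrank_mono h4).trans (finrank_box _ _)
  have h7 : finrank K (W ⧸ ker N') = finrank K (range N') := N'.quotKerEquivRange.finrank_eq
  rw [h7] at h2
  omega

end

section

variable {K : Type*} [Field K] {V : Type*} [AddCommGroup V] [Module K V] [FiniteDimensional K V]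

/-- The solutions `X : W → V` of `A X = γ X B`. -/
def sol {W : Type*} [AddCommGroup W] [Module K W] (A : V →ₗ[K] V) (B : W →ₗ[K] W) (γ : K) :
    Submodule K (W →ₗ[K] V) where
  carrier := {X | A ∘ₗ X = γ • (X ∘ₗ B)}
  add_mem' := by
    intro X Y h1 h2
    simp only [Set.mem_setOf_eq] at *
    rw [LinearMap.comp_add, h1, h2, LinearMap.add_comp, smul_add]
  zero_mem' := by simp
  smul_mem' := by
    intro c X h1
    simp only [Set.mem_setOf_eq] at *
    rw [LinearMap.comp_smul, h1, LinearMap.smul_comp, smul_comm]

theorem mem_sol {W : Type*} [AddCommGroup W] [Module K W] {A : V →ₗ[K] V} {B : W →ₗ[K] W} {γ : K}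
    {X : W →ₗ[K] V} : X ∈ sol A B γ ↔ ∀ x, A (X x) = γ • X (B x) := by
  constructor
  · intro h x
    exact LinearMap.congr_fun h x
  · intro h
    show A ∘ₗ X = γ • (X ∘ₗ B)
    ext x
    exact h x

theorem key2 (A : V →ₗ[K] V) (γ : K) (hγ : γ ≠ 0) (M : ℝ) (hM : 1 / 2 ≤ M)
    (hA : ∀ c : K, (finrank K (ker (A - c • LinearMap.id)) : ℝ) ≤ M * finrank K V) :
    ∀ (n : ℕ) (W : Type w) [AddCommGroup W] [Module K W] [FiniteDimensional K W]
      (B : W →ₗ[K] W), finrank K W = n →
      (finrank K (sol A B γ) : ℝ) ≤ n * (M * finrank K V) := by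
  intro n
  induction n using Nat.strong_induction_on with
  | _ n ih =>
  intro W _ _ _ B hn
  rcases Nat.eq_zero_or_pos n with h0 | hpos
  · have h1 : finrank K (sol A B γ) ≤ finrank K (W →ₗ[K] V) := Submodule.finrank_le _
    rw [Module.finrank_linearMap, hn, h0, zero_mul] at h1
    have h2 : finrank K (sol A B γ) = 0 := Nat.le_zero.1 h1
    rw [h2, h0]
    simp
  · have : Nontrivial W := Module.nontrivial_of_finrank_pos (R := K) (by omega)
    obtain ⟨w0, hw0⟩ := exists_ne (0 : W)
    let L : Submodule K W := Submodule.span K (Set.range fun k : ℕ => (B ^ k) w0)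
    have hwL : w0 ∈ L := Submodule.subset_span ⟨0, by simp⟩
    have hBwL : B w0 ∈ L := Submodule.subset_span ⟨1, by simp⟩
    have hBL : L ≤ L.comap B := by
      rw [Submodule.span_le]
      rintro _ ⟨k, rfl⟩
      refine Submodule.subset_span ⟨k + 1, ?_⟩
      simp [pow_succ']
    -- evaluation at `w0`
    let res : sol A B γ →ₗ[K] V :=
      { toFun := fun X => (X : W →ₗ[K] V) w0
        map_add' := fun Y Z => by simp
        map_smul' := fun c Y => by simp }
    have hrk := finrank_range_add_finrank_ker res
    have hfd : finrank K (W ⧸ L) + finrank K L = n := by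
      rw [← hn]; exact Submodule.finrank_quotient_add_finrank L
    have hLpos : 0 < finrank K L := by
      have : Nontrivial L := ⟨⟨⟨w0, hwL⟩, 0, fun h => hw0 (by simpa using congrArg Subtype.val h)⟩⟩
      exact Module.finrank_pos
    -- the range
    have hV0 : (0 : ℝ) ≤ finrank K V := Nat.cast_nonneg _
    have hMV : (0 : ℝ) ≤ M * finrank K V := mul_nonneg (by linarith) hV0
    have hr : (finrank K (range res) : ℝ) ≤ finrank K L * (M * finrank K V) := by
      by_cases hL : finrank K L = 1
      · have h1 := (finrank_eq_one_iff_of_nonzero' (K := K) (⟨w0, hwL⟩ : L)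
          (fun h => hw0 (by simpa using congrArg Subtype.val h))).1 hL ⟨B w0, hBwL⟩
        obtain ⟨β, hβ⟩ := h1
        have hβ' : B w0 = β • w0 := by simpa using (congrArg Subtype.val hβ).symm
        have h2 : range res ≤ ker (A - (γ * β) • LinearMap.id) := by
          rintro _ ⟨⟨X, hX⟩, rfl⟩
          have h3 := mem_sol.1 hX w0
          rw [mem_ker]
          show A (X w0) - (γ * β) • X w0 = 0
          rw [h3, hβ', map_smul, smul_smul, sub_self]
        have h3 : finrank K (range res) ≤ finrank K (ker (A - (γ * β) • LinearMap.id)) :=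
          Submodule.finrank_mono h2
        have h4 : (finrank K (range res) : ℝ) ≤ finrank K (ker (A - (γ * β) • LinearMap.id)) := by
          exact_mod_cast h3
        rw [hL]
        have := hA (γ * β)
        push_cast
        linarith
      · have h2 : 2 ≤ finrank K L := by omega
        have h3 : finrank K (range res) ≤ finrank K V := Submodule.finrank_le _
        have h4 : (finrank K (range res) : ℝ) ≤ finrank K V := by exact_mod_cast h3
        have h5 : (2 : ℝ) ≤ finrank K L := by exact_mod_cast h2
        have h6 : (finrank K V : ℝ) ≤ 2 * (M * finrank K V) := by nlinarith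
        have h7 : 2 * (M * finrank K V) ≤ finrank K L * (M * finrank K V) :=
          mul_le_mul_of_nonneg_right h5 hMV
        linarith
    -- the kernel
    have hk : finrank K (ker res) ≤ finrank K (sol A (L.mapQ L B hBL) γ) := by
      have hvan : ∀ X ∈ sol A B γ, X w0 = 0 → L ≤ ker X := by
        intro X hX h0
        rw [Submodule.span_le]
        rintro _ ⟨k, rfl⟩
        show X ((B ^ k) w0) = 0
        induction k with
        | zero => simpa using h0
        | succ k ihk =>
          have h3 := mem_sol.1 hX ((B ^ k) w0)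
          rw [ihk, map_zero] at h3
          have h4 : X (B ((B ^ k) w0)) = 0 := by
            have := (smul_eq_zero.1 h3.symm)
            exact this.resolve_left hγ
          rw [pow_succ']
          exact h4
      let f : ker res →ₗ[K] sol A (L.mapQ L B hBL) γ :=
        { toFun := fun X => ⟨L.liftQ (X.1 : W →ₗ[K] V) (hvan X.1 X.1.2 X.2), by
            rw [mem_sol]
            intro y
            obtain ⟨x, rfl⟩ := L.mkQ_surjective y
            have := mem_sol.1 X.1.2 x
            simpa using this⟩
          map_add' := fun Y Z => by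
            apply Subtype.ext
            ext x
            simp
          map_smul' := fun c Y => by
            apply Subtype.ext
            ext x
            simp }
      refine LinearMap.finrank_le_finrank_of_injective (f := f) ?_
      intro X Y h
      apply Subtype.ext
      apply Subtype.ext
      ext x
      have h1 := congrArg (fun Z : sol A (L.mapQ L B hBL) γ => (Z : (W ⧸ L) →ₗ[K] V) (L.mkQ x)) h
      simpa [f] using h1
    have hlt : finrank K (W ⧸ L) < n := by omega
    have h8 := ih (finrank K (W ⧸ L)) hlt (W ⧸ L) (L.mapQ L B hBL) rfl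
    have h9 : (finrank K (ker res) : ℝ) ≤ finrank K (W ⧸ L) * (M * finrank K V) := by
      have : (finrank K (ker res) : ℝ) ≤ finrank K (sol A (L.mapQ L B hBL) γ) := by exact_mod_cast hk
      linarith
    have h10 : (finrank K (sol A B γ) : ℝ) = finrank K (range res) + finrank K (ker res) := by
      exact_mod_cast hrk.symm
    have h11 : (n : ℝ) = finrank K (W ⧸ L) + finrank K L := by exact_mod_cast hfd.symm
    rw [h10, h11]
    linarith [add_mul (finrank K (W ⧸ L) : ℝ) (finrank K L : ℝ) (M * finrank K V)]

end

end Pool.Agent.Q194.LinSof
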