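import Pool.Agent.Q194.LinSof.Conv

/-!
# Elementary abelian 2-groups: nothing beyond `1/2`
-/

set_option autoImplicit false

namespace Pool.Agent.Q194.LinSof

open Module LinearMap

universe u v w

section

variable {K : Type*} [Field K] {V : Type*} [AddCommGroup V] [Module K V] [FiniteDimensional K V]

theorem finrank_map_add_inf (T : V →ₗ[K] V) (P : Submodule K V) :
    finrank K (P.map T) + finrank K (P ⊓ ker T : Submodule K V) = finrank K P := by
  have h := finrank_range_add_finrank_ker (T.domRestrict P)
  rw [LinearMap.range_domRestrict] at h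
  have h2 : finrank K (ker (T.domRestrict P)) = finrank K (P ⊓ ker T : Submodule K V) := by
    rw [← Submodule.map_comap_subtype P (ker T), Submodule.finrank_map_subtype_eq]
    rfl
  rw [h2] at h
  exact h

/-- Splitting under an involution, in characteristic different from two. -/
theorem split_inv (h2 : (2 : K) ≠ 0) (c : V →ₗ[K] V) (hc : ∀ x, c (c x) = x) (X : Submodule K V)
    (hX : ∀ x ∈ X, c x ∈ X) :
    finrank K (X ⊓ ker (c - LinearMap.id) : Submodule K V) +
      finrank K (X ⊓ ker (c + LinearMap.id) : Submodule K V) = finrank K X := by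
  rw [← Submodule.finrank_sup_add_finrank_inf_eq]
  have h3 : ((X ⊓ ker (c - LinearMap.id)) ⊓ (X ⊓ ker (c + LinearMap.id)) : Submodule K V) = ⊥ := by
    rw [eq_bot_iff]
    rintro x ⟨⟨-, h4⟩, -, h5⟩
    have h4' : c x - x = 0 := h4
    have h5' : c x + x = 0 := h5
    have h6 : (2 : K) • x = 0 := by
      rw [two_smul]
      calc x + x = (c x + x) - (c x - x) := by abel
        _ = 0 := by rw [h4', h5', sub_zero]
    exact (smul_eq_zero.1 h6).resolve_left h2
  have h4 : ((X ⊓ ker (c - LinearMap.id)) ⊔ (X ⊓ ker (c + LinearMap.id)) : Submodule K V) = X := by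
    apply le_antisymm
    · exact sup_le inf_le_left inf_le_left
    · intro x hx
      have h7 : x = (2 : K)⁻¹ • (x + c x) + (2 : K)⁻¹ • (x - c x) := by
        rw [← smul_add]
        have : x + c x + (x - c x) = (2 : K) • x := by rw [two_smul]; abel
        rw [this, inv_smul_smul₀ h2]
      rw [h7]
      refine Submodule.add_mem_sup ⟨X.smul_mem _ (X.add_mem hx (hX x hx)), ?_⟩
        ⟨X.smul_mem _ (X.sub_mem hx (hX x hx)), ?_⟩
      · show c ((2 : K)⁻¹ • (x + c x)) - (2 : K)⁻¹ • (x + c x) = 0
        rw [map_smul, map_add, hc, add_comm (c x) x, sub_self]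
      · show c ((2 : K)⁻¹ • (x - c x)) + (2 : K)⁻¹ • (x - c x) = 0
        rw [map_smul, map_sub, hc, ← smul_add]
        have : c x - x + (x - c x) = 0 := by abel
        rw [this, smul_zero]
  rw [h3, h4, finrank_bot, add_zero]

/-- The average dimension of the fixed spaces is at least half of the dimension. -/
theorem average : ∀ (m : ℕ) (ρ : (Fin m → ZMod 2) → (V →ₗ[K] V)) (_ : ρ 0 = LinearMap.id)
    (_ : ∀ x y v, ρ (x + y) v = ρ x (ρ y v)) (P : Submodule K V)
    (_ : ∀ x, ∀ v ∈ P, ρ x v ∈ P),
    2 ^ m * finrank K P ≤ 2 * ∑ x, finrank K (P ⊓ ker (ρ x - LinearMap.id) : Submodule K V) := by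
  by_cases hchar : (2 : K) = 0
  · intro m ρ h0 hadd P hP
    have key : ∀ x, finrank K P ≤ 2 * finrank K (P ⊓ ker (ρ x - LinearMap.id) : Submodule K V) := by
      intro x
      have h1 := finrank_map_add_inf (ρ x - LinearMap.id) P
      have h2 : P.map (ρ x - LinearMap.id) ≤ (P ⊓ ker (ρ x - LinearMap.id) : Submodule K V) := by
        rintro _ ⟨v, hv, rfl⟩
        refine ⟨P.sub_mem (hP x v hv) hv, ?_⟩
        have h3 : x + x = 0 := by
          funext i
          exact CharTwo.add_self_eq_zero (x i)
        have h4 : ρ x (ρ x v) = v := by rw [← hadd, h3, h0]; rfl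
        show ρ x (ρ x v - v) - (ρ x v - v) = 0
        rw [map_sub, h4]
        have h5 : (2 : K) • v = 0 := by rw [hchar, zero_smul]
        have h6 : (2 : K) • (ρ x v) = 0 := by rw [hchar, zero_smul]
        rw [two_smul] at h5 h6
        calc v - ρ x v - (ρ x v - v) = (v + v) - (ρ x v + ρ x v) := by abel
          _ = 0 := by rw [h5, h6, sub_zero]
      have h3 := Submodule.finrank_mono h2
      omega
    calc 2 ^ m * finrank K P = ∑ _x : (Fin m → ZMod 2), finrank K P := by
          simp [Finset.card_univ, ZMod.card]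
      _ ≤ ∑ x, 2 * finrank K (P ⊓ ker (ρ x - LinearMap.id) : Submodule K V) :=
          Finset.sum_le_sum fun x _ => key x
      _ = 2 * ∑ x, finrank K (P ⊓ ker (ρ x - LinearMap.id) : Submodule K V) := by
          rw [Finset.mul_sum]
  · intro m
    induction m with
    | zero =>
      intro ρ h0 hadd P hP
      have h1 : ∀ x : Fin 0 → ZMod 2, (P ⊓ ker (ρ x - LinearMap.id) : Submodule K V) = P := by
        intro x
        have : x = 0 := Subsingleton.elim _ _
        rw [this, h0, sub_self, LinearMap.ker_zero, inf_top_eq]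
      have h2 : ∀ x : Fin 0 → ZMod 2,
          finrank K (P ⊓ ker (ρ x - LinearMap.id) : Submodule K V) = finrank K P := by
        intro x
        rw [h1 x]
      simp only [h2]
      simp
      omega
    | succ m ih =>
      intro ρ h0 hadd P hP
      -- the last involution
      set c : V →ₗ[K] V := ρ (Fin.cons 1 0) with hcdef
      have hcc : ∀ v, c (c v) = v := by
        intro v
        rw [hcdef, ← hadd]
        have : (Fin.cons 1 0 + Fin.cons 1 0 : Fin (m + 1) → ZMod 2) = 0 := by
          funext i
          exact CharTwo.add_self_eq_zero _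
        rw [this, h0]; rfl
      have hcons : ∀ x : Fin m → ZMod 2, (Fin.cons 1 x : Fin (m + 1) → ZMod 2) =
          Fin.cons 0 x + Fin.cons 1 0 := by
        intro x
        funext i
        refine Fin.cases ?_ (fun j => ?_) i
        · simp
        · simp
      have hcons' : ∀ x : Fin m → ZMod 2, (Fin.cons 1 x : Fin (m + 1) → ZMod 2) =
          Fin.cons 1 0 + Fin.cons 0 x := by
        intro x; rw [hcons]; exact add_comm _ _
      have hbc : ∀ x v, ρ (Fin.cons 1 x) v = ρ (Fin.cons 0 x) (c v) := by
        intro x v; rw [hcons, hadd]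
      have hcb : ∀ x v, ρ (Fin.cons 1 x) v = c (ρ (Fin.cons 0 x) v) := by
        intro x v; rw [hcons', hadd]
      have hcomm : ∀ x v, c (ρ (Fin.cons 0 x) v) = ρ (Fin.cons 0 x) (c v) := by
        intro x v; rw [← hcb, hbc]
      let ρ' : (Fin m → ZMod 2) → (V →ₗ[K] V) := fun x => ρ (Fin.cons 0 x)
      have h0' : ρ' 0 = LinearMap.id := by
        have : (Fin.cons 0 0 : Fin (m + 1) → ZMod 2) = 0 := by
          funext i
          refine Fin.cases ?_ (fun j => ?_) i <;> simp
        show ρ (Fin.cons 0 0) = _
        rw [this, h0]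
      have hadd' : ∀ x y v, ρ' (x + y) v = ρ' x (ρ' y v) := by
        intro x y v
        show ρ (Fin.cons 0 (x + y)) v = _
        have : (Fin.cons 0 (x + y) : Fin (m + 1) → ZMod 2) = Fin.cons 0 x + Fin.cons 0 y := by
          funext i
          refine Fin.cases ?_ (fun j => ?_) i <;> simp
        rw [this, hadd]
      have hbb : ∀ x v, ρ' x (ρ' x v) = v := by
        intro x v
        rw [← hadd']
        have : x + x = 0 := by
          funext i
          exact CharTwo.add_self_eq_zero _
        rw [this, h0']; rfl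
      set Pp : Submodule K V := P ⊓ ker (c - LinearMap.id) with hPp
      set Pm : Submodule K V := P ⊓ ker (c + LinearMap.id) with hPm
      have hPsplit : finrank K Pp + finrank K Pm = finrank K P :=
        split_inv hchar c hcc P (fun v hv => hP _ v hv)
      have hIH := ih ρ' h0' hadd' Pp (by
        rintro x v ⟨hv, hv2⟩
        refine ⟨hP _ v hv, ?_⟩
        have hv3 : c v - v = 0 := hv2
        show c (ρ (Fin.cons 0 x) v) - ρ (Fin.cons 0 x) v = 0
        rw [hcomm, ← map_sub, hv3, map_zero])
      have hx : ∀ x, finrank K (P ⊓ ker (ρ (Fin.cons 0 x) - LinearMap.id) : Submodule K V) +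
          finrank K (P ⊓ ker (ρ (Fin.cons 1 x) - LinearMap.id) : Submodule K V) =
          2 * finrank K (Pp ⊓ ker (ρ' x - LinearMap.id) : Submodule K V) + finrank K Pm := by
        intro x
        have s1 := split_inv hchar c hcc (P ⊓ ker (ρ (Fin.cons 0 x) - LinearMap.id)) (by
          rintro v ⟨hv, hv2⟩
          refine ⟨hP _ v hv, ?_⟩
          have hv3 : ρ (Fin.cons 0 x) v - v = 0 := hv2
          show ρ (Fin.cons 0 x) (c v) - c v = 0
          rw [← hcomm, ← map_sub, hv3, map_zero])
        have s2 := split_inv hchar c hcc (P ⊓ ker (ρ (Fin.cons 1 x) - LinearMap.id)) (by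
          rintro v ⟨hv, hv2⟩
          refine ⟨hP _ v hv, ?_⟩
          have hv3 : ρ (Fin.cons 1 x) v - v = 0 := hv2
          show ρ (Fin.cons 1 x) (c v) - c v = 0
          rw [hbc, ← hcomm, ← hbc, ← map_sub, hv3, map_zero])
        have s3 := split_inv hchar (ρ' x) (hbb x) Pm (by
          rintro v ⟨hv, hv2⟩
          refine ⟨hP _ v hv, ?_⟩
          have hv3 : c v + v = 0 := hv2
          show c (ρ (Fin.cons 0 x) v) + ρ (Fin.cons 0 x) v = 0
          rw [hcomm, ← map_add, hv3, map_zero])
        have e1 : (P ⊓ ker (ρ (Fin.cons 0 x) - LinearMap.id)) ⊓ ker (c - LinearMap.id) =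
            Pp ⊓ ker (ρ' x - LinearMap.id) := by
          rw [hPp, inf_right_comm]
        have e2 : (P ⊓ ker (ρ (Fin.cons 0 x) - LinearMap.id)) ⊓ ker (c + LinearMap.id) =
            Pm ⊓ ker (ρ' x - LinearMap.id) := by
          rw [hPm, inf_right_comm]
        have e3 : (P ⊓ ker (ρ (Fin.cons 1 x) - LinearMap.id)) ⊓ ker (c - LinearMap.id) =
            Pp ⊓ ker (ρ' x - LinearMap.id) := by
          rw [hPp, inf_right_comm]
          ext v
          constructor
          · rintro ⟨⟨h3, h4⟩, h5⟩
            refine ⟨⟨h3, h4⟩, ?_⟩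
            have h4' : c v = v := sub_eq_zero.1 h4
            have h5' : ρ (Fin.cons 1 x) v = v := sub_eq_zero.1 h5
            rw [hbc, h4'] at h5'
            exact sub_eq_zero.2 h5'
          · rintro ⟨⟨h3, h4⟩, h5⟩
            refine ⟨⟨h3, h4⟩, ?_⟩
            have h4' : c v = v := sub_eq_zero.1 h4
            have h5' : ρ (Fin.cons 0 x) v = v := sub_eq_zero.1 h5
            show ρ (Fin.cons 1 x) v - v = 0
            rw [hbc, h4', h5', sub_self]
        have e4 : (P ⊓ ker (ρ (Fin.cons 1 x) - LinearMap.id)) ⊓ ker (c + LinearMap.id) =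
            Pm ⊓ ker (ρ' x + LinearMap.id) := by
          rw [hPm, inf_right_comm]
          ext v
          constructor
          · rintro ⟨⟨h3, h4⟩, h5⟩
            refine ⟨⟨h3, h4⟩, ?_⟩
            have h4' : c v = -v := eq_neg_of_add_eq_zero_left h4
            have h5' : ρ (Fin.cons 1 x) v = v := sub_eq_zero.1 h5
            rw [hbc, h4', map_neg] at h5'
            have h6 : ρ (Fin.cons 0 x) v = -v := neg_eq_iff_eq_neg.1 h5'
            show ρ (Fin.cons 0 x) v + v = 0
            rw [h6, neg_add_cancel]
          · rintro ⟨⟨h3, h4⟩, h5⟩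
            refine ⟨⟨h3, h4⟩, ?_⟩
            have h4' : c v = -v := eq_neg_of_add_eq_zero_left h4
            have h5' : ρ (Fin.cons 0 x) v = -v := eq_neg_of_add_eq_zero_left h5
            show ρ (Fin.cons 1 x) v - v = 0
            rw [hbc, h4', map_neg, h5', neg_neg, sub_self]
        rw [e1, e2] at s1
        rw [e3, e4] at s2
        omega
      have hsum : ∑ y : Fin (m + 1) → ZMod 2,
          finrank K (P ⊓ ker (ρ y - LinearMap.id) : Submodule K V) =
          ∑ x : Fin m → ZMod 2,
            (2 * finrank K (Pp ⊓ ker (ρ' x - LinearMap.id) : Submodule K V) + finrank K Pm) := by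
        rw [← (Fin.consEquiv (fun _ : Fin (m + 1) => ZMod 2)).sum_comp, Fintype.sum_prod_type]
        show ∑ t : Fin 2, _ = _
        rw [Fin.sum_univ_two, ← Finset.sum_add_distrib]
        exact Finset.sum_congr rfl fun x _ => hx x
      have hcard : (Finset.univ : Finset (Fin m → ZMod 2)).card = 2 ^ m := by
        simp [ZMod.card]
      rw [hsum, Finset.sum_add_distrib, ← Finset.mul_sum, Finset.sum_const, hcard, smul_eq_mul,
        ← hPsplit]
      have : 2 ^ (m + 1) = 2 * 2 ^ m := by ring
      rw [this]
      nlinarith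

end

end Pool.Agent.Q194.LinSof
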