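import Pool.Agent.Q194.LinSof.Neg

/-!
# Elementary abelian 2-groups are not `ε`-approximable for `ε > 1/2`
-/

set_option autoImplicit false

namespace Pool.Agent.Q194.LinSof

open Module LinearMap

universe u v w

theorem codim_inf {K : Type*} [Field K] {V : Type*} [AddCommGroup V] [Module K V]
    [FiniteDimensional K V] {ι : Type*} (s : Finset ι) (T : ι → V →ₗ[K] V) :
    finrank K V ≤ finrank K (s.inf fun i => ker (T i) : Submodule K V) +
      ∑ i ∈ s, finrank K (range (T i)) := by
  classical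
  induction s using Finset.induction_on with
  | empty => rw [Finset.inf_empty, finrank_top, Finset.sum_empty, add_zero]
  | insert a s ha ih =>
    rw [Finset.sum_insert ha, Finset.inf_insert]
    have h1 := Submodule.finrank_sup_add_finrank_inf_eq (ker (T a))
      (s.inf fun i => ker (T i) : Submodule K V)
    have h2 := Submodule.finrank_le (ker (T a) ⊔ (s.inf fun i => ker (T i) : Submodule K V))
    have h3 := finrank_range_add_finrank_ker (T a)
    omega

/-- The group `(ℤ/2)^m`. -/
abbrev El (m : ℕ) : Type := Multiplicative (Fin m → ZMod 2)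

theorem El.ineq {K : Type u} [Field K] (m : ℕ) (ε δ : ℝ) (hδ : 0 < δ)
    (h : ∃ n : ℕ, 0 < n ∧ ∃ φ : El m → Matrix.GeneralLinearGroup (Fin n) K,
      (∀ g h, rankDist (φ g * φ h) (φ (g * h)) < δ) ∧
      (∀ g h, g ≠ h → ε - δ < rankDist (φ g) (φ h))) :
    (2 ^ m : ℝ) * (1 - ((2 ^ m + 1) * (2 ^ m * 2 ^ m)) * δ) ≤
      2 * (1 + (2 ^ m - 1) * (1 - ε + δ)) := by
  classical
  obtain ⟨n, hn, φ, h1, h2⟩ := h
  have hn' : (0 : ℝ) < n := by exact_mod_cast hn
  let A : (Fin m → ZMod 2) → ((Fin n → K) →ₗ[K] (Fin n → K)) :=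
    fun x => (eqv (φ (Multiplicative.ofAdd x)) : (Fin n → K) →ₗ[K] (Fin n → K))
  have hinj : ∀ x, Function.Injective (A x) := fun x => (eqv (φ (Multiplicative.ofAdd x))).injective
  have hcard : Fintype.card (Fin m → ZMod 2) = 2 ^ m := by simp [ZMod.card]
  -- errors
  have hE : ∀ x y, (finrank K (range (A x ∘ₗ A y - A (x + y))) : ℝ) ≤ δ * n := by
    intro x y
    have h3 := h1 (Multiplicative.ofAdd x) (Multiplicative.ofAdd y)
    have h4 : A x ∘ₗ A y - A (x + y) = Matrix.mulVecLin
        ((φ (Multiplicative.ofAdd x) * φ (Multiplicative.ofAdd y)).val -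
          (φ (Multiplicative.ofAdd x * Multiplicative.ofAdd y)).val) := by
      apply LinearMap.ext
      intro v
      show (φ (Multiplicative.ofAdd x)).val.mulVec ((φ (Multiplicative.ofAdd y)).val.mulVec v) -
        (φ (Multiplicative.ofAdd x * Multiplicative.ofAdd y)).val.mulVec v = _
      rw [Matrix.mulVecLin_apply, Matrix.sub_mulVec, Units.val_mul, Matrix.mulVec_mulVec]
    unfold rankDist at h3
    rw [div_lt_iff₀ hn'] at h3
    rw [h4]
    exact h3.le
  have hD : ∀ x, x ≠ 0 → (finrank K (ker (A x - A 0)) : ℝ) ≤ (1 - ε + δ) * n := by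
    intro x hx
    have h3 := h2 (Multiplicative.ofAdd x) (Multiplicative.ofAdd 0)
      (fun h => hx (Multiplicative.ofAdd.injective h))
    have h4 : A x - A 0 = Matrix.mulVecLin ((φ (Multiplicative.ofAdd x)).val -
        (φ (Multiplicative.ofAdd 0)).val) := by
      apply LinearMap.ext
      intro v
      show (φ (Multiplicative.ofAdd x)).val.mulVec v - (φ (Multiplicative.ofAdd 0)).val.mulVec v = _
      rw [Matrix.mulVecLin_apply, Matrix.sub_mulVec]
    have h5 := finrank_range_add_finrank_ker (A x - A 0)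
    rw [Module.finrank_fin_fun] at h5
    unfold rankDist at h3
    rw [lt_div_iff₀ hn'] at h3
    have h6 : ((φ (Multiplicative.ofAdd x)).val - (φ (Multiplicative.ofAdd 0)).val).rank =
        finrank K (range (A x - A 0)) := by
      rw [h4]; rfl
    rw [h6] at h3
    have h7 : (finrank K (range (A x - A 0)) : ℝ) + finrank K (ker (A x - A 0)) = n := by
      exact_mod_cast h5
    nlinarith
  -- the exact subspace
  let B : Option (Fin m → ZMod 2) → ((Fin n → K) →ₗ[K] (Fin n → K)) := fun k =>
    match k with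
    | none => LinearMap.id
    | some z => A z
  let T : Option (Fin m → ZMod 2) × (Fin m → ZMod 2) × (Fin m → ZMod 2) →
      ((Fin n → K) →ₗ[K] (Fin n → K)) := fun i => (A i.2.1 ∘ₗ A i.2.2 - A (i.2.1 + i.2.2)) ∘ₗ B i.1
  let P : Submodule K (Fin n → K) := Finset.univ.inf fun i => ker (T i)
  have hPmem : ∀ v ∈ P, ∀ k x y, A x (A y (B k v)) = A (x + y) (B k v) := by
    intro v hv k x y
    have h3 : v ∈ ker (T (k, x, y)) := (Finset.inf_le (f := fun i => ker (T i))
      (Finset.mem_univ (k, x, y))) hv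
    exact sub_eq_zero.1 h3
  have hPmem2 : ∀ v, (∀ k x y, A x (A y (B k v)) = A (x + y) (B k v)) → v ∈ P := by
    intro v hv
    have h3 : ∀ s : Finset (Option (Fin m → ZMod 2) × (Fin m → ZMod 2) × (Fin m → ZMod 2)),
        v ∈ (s.inf fun i => ker (T i) : Submodule K (Fin n → K)) := by
      intro s
      induction s using Finset.induction_on with
      | empty => simp
      | insert a s ha ih =>
        rw [Finset.inf_insert]
        exact ⟨sub_eq_zero.2 (hv a.1 a.2.1 a.2.2), ih⟩
    exact h3 _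
  have hPinv : ∀ z, ∀ v ∈ P, A z v ∈ P := by
    intro z v hv
    apply hPmem2
    intro k x y
    cases k with
    | none => exact hPmem v hv (some z) x y
    | some k =>
      show A x (A y (A k (A z v))) = A (x + y) (A k (A z v))
      have h3 : A k (A z v) = A (k + z) v := hPmem v hv none k z
      rw [h3]
      exact hPmem v hv (some (k + z)) x y
  have hcod : (n : ℝ) ≤ finrank K P + ((2 ^ m + 1) * (2 ^ m * 2 ^ m)) * (δ * n) := by
    have h3 := codim_inf Finset.univ T
    rw [Module.finrank_fin_fun] at h3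
    have h4 : (n : ℝ) ≤ finrank K P + ∑ i, (finrank K (range (T i)) : ℝ) := by exact_mod_cast h3
    have h5 : ∑ i, (finrank K (range (T i)) : ℝ) ≤ ∑ _i : Option (Fin m → ZMod 2) ×
        (Fin m → ZMod 2) × (Fin m → ZMod 2), δ * n := by
      refine Finset.sum_le_sum fun i _ => ?_
      have h6 : finrank K (range (T i)) ≤ finrank K (range (A i.2.1 ∘ₗ A i.2.2 - A (i.2.1 + i.2.2))) :=
        finrank_range_comp_right _ _
      have h7 : (finrank K (range (T i)) : ℝ) ≤
        finrank K (range (A i.2.1 ∘ₗ A i.2.2 - A (i.2.1 + i.2.2))) := by exact_mod_cast h6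
      exact h7.trans (hE _ _)
    rw [Finset.sum_const, Finset.card_univ, Fintype.card_prod, Fintype.card_prod,
      Fintype.card_option, hcard, nsmul_eq_mul] at h5
    push_cast at h5
    linarith
  -- the exact representation
  let ρ : (Fin m → ZMod 2) → (P →ₗ[K] P) := fun x => (A x).restrict (hPinv x)
  have hρ0 : ρ 0 = LinearMap.id := by
    apply LinearMap.ext
    intro v
    apply Subtype.ext
    have h3 := hPmem v.1 v.2 none 0 0
    rw [add_zero] at h3
    exact hinj 0 h3
  have hρadd : ∀ x y v, ρ (x + y) v = ρ x (ρ y v) := by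
    intro x y v
    apply Subtype.ext
    exact (hPmem v.1 v.2 none x y).symm
  have hav := average m ρ hρ0 hρadd ⊤ (fun _ _ _ => Submodule.mem_top)
  rw [finrank_top] at hav
  have hkx : ∀ x, finrank K ((⊤ : Submodule K P) ⊓ ker (ρ x - LinearMap.id) : Submodule K P) ≤
      finrank K (ker (A x - A 0)) := by
    intro x
    rw [top_inf_eq]
    have h3 : (ker (ρ x - LinearMap.id)).map P.subtype ≤ ker (A x - A 0) := by
      rintro _ ⟨v, hv, rfl⟩
      have h4 : ρ x v = v := sub_eq_zero.1 hv
      have h5 : A x v.1 = v.1 := congrArg Subtype.val h4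
      have h6 : ρ 0 v = v := by rw [hρ0]; rfl
      have h7 : A 0 v.1 = v.1 := congrArg Subtype.val h6
      show A x v.1 - A 0 v.1 = 0
      rw [h5, h7, sub_self]
    rw [← Submodule.finrank_map_subtype_eq P (ker (ρ x - LinearMap.id))]
    exact Submodule.finrank_mono h3
  have hsum : (∑ x, finrank K ((⊤ : Submodule K P) ⊓ ker (ρ x - LinearMap.id) : Submodule K P) : ℝ) ≤
      n + (2 ^ m - 1) * ((1 - ε + δ) * n) := by
    rw [← Finset.add_sum_erase _ _ (Finset.mem_univ (0 : Fin m → ZMod 2))]
    have h3 : (finrank K ((⊤ : Submodule K P) ⊓ ker (ρ 0 - LinearMap.id) : Submodule K P) : ℝ) ≤ n := by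
      have h4 : finrank K ((⊤ : Submodule K P) ⊓ ker (ρ 0 - LinearMap.id) : Submodule K P) ≤ n := by
        refine (Submodule.finrank_le _).trans ((Submodule.finrank_le P).trans ?_)
        rw [Module.finrank_fin_fun]
      exact_mod_cast h4
    have h5 : ∑ x ∈ Finset.univ.erase (0 : Fin m → ZMod 2),
        (finrank K ((⊤ : Submodule K P) ⊓ ker (ρ x - LinearMap.id) : Submodule K P) : ℝ) ≤
        ∑ _x ∈ Finset.univ.erase (0 : Fin m → ZMod 2), (1 - ε + δ) * n := by
      refine Finset.sum_le_sum fun x hx => ?_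
      have h6 : (finrank K ((⊤ : Submodule K P) ⊓ ker (ρ x - LinearMap.id) : Submodule K P) : ℝ) ≤
        finrank K (ker (A x - A 0)) := by exact_mod_cast hkx x
      exact h6.trans (hD x (Finset.ne_of_mem_erase hx))
    rw [Finset.sum_const, Finset.card_erase_of_mem (Finset.mem_univ _), Finset.card_univ, hcard,
      nsmul_eq_mul, Nat.cast_sub (Nat.one_le_two_pow)] at h5
    push_cast at h5
    linarith
  have hav' : (2 ^ m : ℝ) * finrank K P ≤ 2 * ∑ x,
      (finrank K ((⊤ : Submodule K P) ⊓ ker (ρ x - LinearMap.id) : Submodule K P) : ℝ) := by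
    exact_mod_cast hav
  have h2m : (0 : ℝ) < 2 ^ m := by positivity
  have hfin : ((2 ^ m : ℝ) * (1 - ((2 ^ m + 1) * (2 ^ m * 2 ^ m)) * δ)) * n ≤
      (2 * (1 + (2 ^ m - 1) * (1 - ε + δ))) * n := by
    have h3 : (2 ^ m : ℝ) * (n - ((2 ^ m + 1) * (2 ^ m * 2 ^ m)) * (δ * n)) ≤
        2 ^ m * finrank K P := mul_le_mul_of_nonneg_left (by linarith) h2m.le
    nlinarith
  exact le_of_mul_le_mul_right hfin hn'

/-- `(ℤ/2)^m` is not `ε`-approximable if `ε > 1/2` and `m` is large. -/
theorem El.not_approximable {K : Type u} [Field K] (ε : ℝ) (hε : 1 / 2 < ε) :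
    ∃ m : ℕ, ¬ Approximable K (El m) ε := by
  -- choose `m` with `(2^m - 1) (2 ε - 1) > 2`
  obtain ⟨m, hm⟩ := pow_unbounded_of_one_lt (2 / (2 * ε - 1) + 1) (by norm_num : (1 : ℝ) < 2)
  refine ⟨m, fun h => ?_⟩
  set N : ℝ := 2 ^ m with hN
  have hpos : 0 < 2 * ε - 1 := by linarith
  have hN1 : 2 < (N - 1) * (2 * ε - 1) := by
    have h1 : 2 / (2 * ε - 1) < N - 1 := by linarith
    rwa [div_lt_iff₀ hpos] at h1
  have hN0 : 1 ≤ N := one_le_pow₀ (by norm_num)
  set δ : ℝ := 1 / (N + 1) ^ 5 with hδ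
  have hδ0 : 0 < δ := by positivity
  have h1 := El.ineq (K := K) m ε δ hδ0 (by
    obtain ⟨n, hn, φ, h1, h2⟩ := h Finset.univ δ hδ0
    exact ⟨n, hn, φ, fun g h => h1 g (Finset.mem_univ _) h (Finset.mem_univ _),
      fun g h hgh => h2 g (Finset.mem_univ _) h (Finset.mem_univ _) hgh⟩)
  rw [← hN] at h1
  have h2 : δ * (N + 1) ^ 5 = 1 := by
    rw [hδ]; field_simp
  have h3 : (N * ((N + 1) * (N * N)) + 2 * (N - 1)) * δ ≤ 1 := by
    rw [← h2, mul_comm]
    refine mul_le_mul_of_nonneg_left ?_ hδ0.le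
    have : (N + 1) ^ 5 = N ^ 5 + 5 * N ^ 4 + 10 * N ^ 3 + 10 * N ^ 2 + 5 * N + 1 := by ring
    rw [this]
    have p2 : 0 ≤ N ^ 2 := by positivity
    have p3 : 0 ≤ N ^ 3 := by positivity
    have p4 : 0 ≤ N ^ 4 := by positivity
    have p5 : 0 ≤ N ^ 5 := by positivity
    nlinarith
  nlinarith

/-- A finite group is approximable with a positive constant. -/
theorem finite_approximable {K : Type u} [Field K] (G : Type) [Group G] [Fintype G] :
    ∃ ε : ℝ, 0 < ε ∧ ε ≤ 2 ∧ Approximable K G ε := by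
  classical
  let φ : G → ((G → K) ≃ₗ[K] (G → K)) := fun g => LinearEquiv.funCongrLeft K K (Equiv.mulLeft g⁻¹)
  have hφ : ∀ g h, (φ h).trans (φ g) = φ (g * h) := by
    intro g h
    ext f x
    simp [φ, LinearEquiv.funCongrLeft, mul_assoc]
  have hinj : ∀ g h, g ≠ h → ((φ g : (G → K) →ₗ[K] (G → K)) - (φ h : (G → K) →ₗ[K] (G → K))) ≠ 0 := by
    intro g h hgh h0
    have h1 := congrFun (LinearMap.congr_fun h0 (Pi.single 1 1)) g
    simp only [φ, LinearMap.sub_apply, Pi.sub_apply, LinearMap.zero_apply, Pi.zero_apply,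
      LinearEquiv.coe_coe, LinearEquiv.funCongrLeft_apply, LinearMap.funLeft_apply,
      Equiv.coe_mulLeft, inv_mul_cancel, Pi.single_eq_same] at h1
    have h2 : h⁻¹ * g ≠ 1 := by
      intro h3
      exact hgh (inv_mul_eq_one.1 h3).symm
    rw [Pi.single_eq_of_ne h2, sub_zero] at h1
    exact one_ne_zero h1
  have hdim : 0 < finrank K (G → K) := by
    rw [Module.finrank_pi]
    exact Fintype.card_pos
  have hdim' : (0 : ℝ) < finrank K (G → K) := by exact_mod_cast hdim
  let b := Module.finBasis K (G → K)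
  refine ⟨1 / finrank K (G → K), by positivity, ?_, ?_⟩
  · rw [div_le_iff₀ hdim']
    have : (1 : ℝ) ≤ finrank K (G → K) := by exact_mod_cast hdim
    linarith
  · intro F δ hδ
    refine ⟨finrank K (G → K), hdim, fun g => mat b (φ g), ?_, ?_⟩
    · intro g _ h _
      have h4 : (mat b (φ g) * mat b (φ h)).val - (mat b (φ (g * h))).val = 0 := by
        rw [Units.val_mul, ← hφ, sub_eq_zero]
        show LinearMap.toMatrix b b _ * LinearMap.toMatrix b b _ = LinearMap.toMatrix b b _
        rw [← LinearMap.toMatrix_comp b b b]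
        rfl
      unfold rankDist
      rw [h4, Matrix.rank_zero]
      simpa using hδ
    · intro g _ h _ hgh
      have h4 : (mat b (φ g)).val - (mat b (φ h)).val =
          LinearMap.toMatrix b b ((φ g : (G → K) →ₗ[K] (G → K)) - (φ h : (G → K) →ₗ[K] (G → K))) := by
        rw [map_sub]
        rfl
      unfold rankDist
      rw [h4, rank_toMatrix']
      have h5 : 0 < finrank K (range ((φ g : (G → K) →ₗ[K] (G → K)) -
          (φ h : (G → K) →ₗ[K] (G → K)))) := by
        rw [Module.finrank_pos_iff, Submodule.nontrivial_iff_ne_bot, Ne, LinearMap.range_eq_bot]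
        exact hinj g h hgh
      have h6 : (1 : ℝ) ≤ finrank K (range ((φ g : (G → K) →ₗ[K] (G → K)) -
          (φ h : (G → K) →ₗ[K] (G → K)))) := by exact_mod_cast h5
      have h7 : 1 / (finrank K (G → K) : ℝ) ≤ (finrank K (range ((φ g : (G → K) →ₗ[K] (G → K)) -
          (φ h : (G → K) →ₗ[K] (G → K)))) : ℝ) / finrank K (G → K) :=
        div_le_div_of_nonneg_right h6 hdim'.le
      linarith

/-- The classes `C_ε` and `C_{1/4}` coincide exactly for `ε ≤ 1/2`. -/
theorem main (K : Type u) [Field K] (ε : ℝ) (h0 : 0 < ε) :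
    (∀ (G : Type) [Group G] [Countable G], Approximable K G ε ↔ Approximable K G (1 / 4)) ↔
      ε ≤ 1 / 2 := by
  constructor
  · intro h
    by_contra hε
    push Not at hε
    obtain ⟨m, hm⟩ := El.not_approximable (K := K) ε hε
    obtain ⟨ε', h1, h2, h3⟩ := finite_approximable (K := K) (El m)
    exact hm ((h (El m)).2 ((approximable_half h1 h2 h3).mono (by norm_num)))
  · intro hε G _ _
    constructor
    · intro h
      exact (approximable_half h0 (by linarith) h).mono (by norm_num)
    · intro h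
      exact (approximable_half (by norm_num) (by norm_num) h).mono hε

end Pool.Agent.Q194.LinSof
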